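import Pool.Agent.R416.STDef
import Pool.Agent.R416.STStmt
import Pool.Agent.R416.STFin

/-!
A generic curve of genus 4 over the rational numbers for which the moments of `a_{2,p}` do not converge to
the moments of the second coefficient of the characteristic polynomial on `USp(8)`.
The curve is `y ^ 2 = x ^ 9 + 63 x ^ 8 + 1008 x ^ 7 + 16464 x ^ 6 + 691488 x ^ 5 + 4840416 x ^ 4 +
90354432 x ^ 3 + 1897443072 x ^ 2 + 13282101504 x + 45749460736`.
-/

set_option autoImplicit false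

namespace Pool.Agent.Results.MP_3da4c4_nt.MumfordCurve

open Polynomial Filter Topology
open Pool.Agent.R416

theorem result :
    ∃ (f : ℤ[X]) (_ : Fact (Odd f.natDegree)), f.Monic ∧ f.natDegree = 9 ∧
      Squarefree (f.map (Int.castRingHom ℚ)) ∧ GenericCurve f ∧
      ∀ (S : Set ℕ) (a : ℕ → ℝ), (∀ p ∈ S, p.Prime) → {p : ℕ | p.Prime ∧ p ∉ S}.Finite →
        {p : ℕ | p ∈ S ∧ a p ≠ aCoeff f 2 p}.Finite →
        ∃ m : ℕ, ¬ Tendsto (fun N : ℕ =>
          (∑ᶠ p ∈ {p : ℕ | p ∈ S ∧ p ≤ N}, a p ^ m) / ({p : ℕ | p ∈ S ∧ p ≤ N}.ncard : ℝ))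
          atTop (𝓝 (cMoment 4 2 m)) :=
  ⟨fM, oddfM, STFin.monic_fM, natDegree_fM, STFin.squarefree_fM,
    genericCurve_of_isGeneric fM STG8.fM_generic,
    fun S a hS hS' ha => STFin.moments S hS hS' a ha⟩

end Pool.Agent.Results.MP_3da4c4_nt.MumfordCurve
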